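import Mathlib

/-!
# A centrally essential right-alternative ring that is not alternative

The ring is the six-dimensional unital algebra over `ℚ` with basis `1, x, y, v, c, w` in which
`x y = v`, `x v = v x = w`, `y c = c y = w` and all other products of two of `x, y, v, c, w`
vanish. Its center is the span of `1, v, c, w`, and `(x, x, y) = -w`.
-/

namespace Pool.Agent.Results.MP_bbc03c_al.RightAltEssential

/-- The center `Z(R)`: elements that commute with all elements and associate with all pairs. -/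
def center (R : Type*) [NonAssocRing R] : Set R :=
  {z | (∀ a b : R, associator z a b = 0 ∧ associator a z b = 0 ∧ associator a b z = 0) ∧
    ∀ a : R, z * a = a * z}

/-- `R` is centrally essential: `Z(R) r ∩ Z(R) ≠ 0` for every nonzero `r`. -/
def IsCentrallyEssential (R : Type*) [NonAssocRing R] : Prop :=
  ∀ r : R, r ≠ 0 → ∃ z ∈ center R, z * r ∈ center R ∧ z * r ≠ 0

/-- `R` is right-alternative: `(a, b, b) = 0` for all `a, b`. -/
def IsRightAlternative (R : Type*) [NonAssocRing R] : Prop :=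
  ∀ a b : R, associator a b b = 0

/-- `R` is alternative: `(a, a, b) = 0` and `(a, b, b) = 0` for all `a, b`. -/
def IsAlternative (R : Type*) [NonAssocRing R] : Prop :=
  ∀ a b : R, associator a a b = 0 ∧ associator a b b = 0

/-- The underlying type of the example: coordinates with respect to `1, x, y, v, c, w`. -/
@[ext] structure Ex where
  /-- coefficient of `1` -/
  e : ℚ
  /-- coefficient of `x` -/
  x : ℚ
  /-- coefficient of `y` -/
  y : ℚ
  /-- coefficient of `v` -/
  v : ℚ
  /-- coefficient of `c` -/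
  c : ℚ
  /-- coefficient of `w` -/
  w : ℚ

namespace Ex

instance : Zero Ex := ⟨⟨0, 0, 0, 0, 0, 0⟩⟩
instance : One Ex := ⟨⟨1, 0, 0, 0, 0, 0⟩⟩
instance : Add Ex := ⟨fun a b => ⟨a.e + b.e, a.x + b.x, a.y + b.y, a.v + b.v, a.c + b.c, a.w + b.w⟩⟩
instance : Neg Ex := ⟨fun a => ⟨-a.e, -a.x, -a.y, -a.v, -a.c, -a.w⟩⟩
instance : Mul Ex := ⟨fun a b =>
  ⟨a.e * b.e, a.e * b.x + a.x * b.e, a.e * b.y + a.y * b.e, a.e * b.v + a.v * b.e + a.x * b.y,
    a.e * b.c + a.c * b.e,
    a.e * b.w + a.w * b.e + a.x * b.v + a.v * b.x + a.y * b.c + a.c * b.y⟩⟩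

@[simp] theorem zero_e : (0 : Ex).e = 0 := rfl
@[simp] theorem zero_x : (0 : Ex).x = 0 := rfl
@[simp] theorem zero_y : (0 : Ex).y = 0 := rfl
@[simp] theorem zero_v : (0 : Ex).v = 0 := rfl
@[simp] theorem zero_c : (0 : Ex).c = 0 := rfl
@[simp] theorem zero_w : (0 : Ex).w = 0 := rfl
@[simp] theorem one_e : (1 : Ex).e = 1 := rfl
@[simp] theorem one_x : (1 : Ex).x = 0 := rfl
@[simp] theorem one_y : (1 : Ex).y = 0 := rfl
@[simp] theorem one_v : (1 : Ex).v = 0 := rfl
@[simp] theorem one_c : (1 : Ex).c = 0 := rfl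
@[simp] theorem one_w : (1 : Ex).w = 0 := rfl
@[simp] theorem add_e (a b : Ex) : (a + b).e = a.e + b.e := rfl
@[simp] theorem add_x (a b : Ex) : (a + b).x = a.x + b.x := rfl
@[simp] theorem add_y (a b : Ex) : (a + b).y = a.y + b.y := rfl
@[simp] theorem add_v (a b : Ex) : (a + b).v = a.v + b.v := rfl
@[simp] theorem add_c (a b : Ex) : (a + b).c = a.c + b.c := rfl
@[simp] theorem add_w (a b : Ex) : (a + b).w = a.w + b.w := rfl
@[simp] theorem neg_e (a : Ex) : (-a).e = -a.e := rfl
@[simp] theorem neg_x (a : Ex) : (-a).x = -a.x := rfl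
@[simp] theorem neg_y (a : Ex) : (-a).y = -a.y := rfl
@[simp] theorem neg_v (a : Ex) : (-a).v = -a.v := rfl
@[simp] theorem neg_c (a : Ex) : (-a).c = -a.c := rfl
@[simp] theorem neg_w (a : Ex) : (-a).w = -a.w := rfl
@[simp] theorem mul_e (a b : Ex) : (a * b).e = a.e * b.e := rfl
@[simp] theorem mul_x (a b : Ex) : (a * b).x = a.e * b.x + a.x * b.e := rfl
@[simp] theorem mul_y (a b : Ex) : (a * b).y = a.e * b.y + a.y * b.e := rfl
@[simp] theorem mul_v (a b : Ex) : (a * b).v = a.e * b.v + a.v * b.e + a.x * b.y := rfl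
@[simp] theorem mul_c (a b : Ex) : (a * b).c = a.e * b.c + a.c * b.e := rfl
@[simp] theorem mul_w (a b : Ex) : (a * b).w =
    a.e * b.w + a.w * b.e + a.x * b.v + a.v * b.x + a.y * b.c + a.c * b.y := rfl

instance : AddCommGroup Ex where
  add_assoc a b c := by ext <;> simp [add_assoc]
  zero_add a := by ext <;> simp
  add_zero a := by ext <;> simp
  nsmul := nsmulRec
  zsmul := zsmulRec
  neg_add_cancel a := by ext <;> simp
  add_comm a b := by ext <;> simp [add_comm]

instance : NonAssocRing Ex where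
  left_distrib a b c := by ext <;> simp <;> ring
  right_distrib a b c := by ext <;> simp <;> ring
  zero_mul a := by ext <;> simp
  mul_zero a := by ext <;> simp
  one_mul a := by ext <;> simp
  mul_one a := by ext <;> simp

@[simp] theorem sub_e (a b : Ex) : (a - b).e = a.e - b.e := by
  rw [sub_eq_add_neg]; simp [sub_eq_add_neg]
@[simp] theorem sub_x (a b : Ex) : (a - b).x = a.x - b.x := by
  rw [sub_eq_add_neg]; simp [sub_eq_add_neg]
@[simp] theorem sub_y (a b : Ex) : (a - b).y = a.y - b.y := by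
  rw [sub_eq_add_neg]; simp [sub_eq_add_neg]
@[simp] theorem sub_v (a b : Ex) : (a - b).v = a.v - b.v := by
  rw [sub_eq_add_neg]; simp [sub_eq_add_neg]
@[simp] theorem sub_c (a b : Ex) : (a - b).c = a.c - b.c := by
  rw [sub_eq_add_neg]; simp [sub_eq_add_neg]
@[simp] theorem sub_w (a b : Ex) : (a - b).w = a.w - b.w := by
  rw [sub_eq_add_neg]; simp [sub_eq_add_neg]

theorem mem_center_iff (z : Ex) : z ∈ center Ex ↔ z.x = 0 ∧ z.y = 0 := by
  constructor
  · rintro ⟨-, h⟩
    have h1 := congrArg Ex.v (h ⟨0, 0, 1, 0, 0, 0⟩)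
    have h2 := congrArg Ex.v (h ⟨0, 1, 0, 0, 0, 0⟩)
    simp at h1 h2
    exact ⟨h1, h2.symm⟩
  · rintro ⟨h1, h2⟩
    refine ⟨fun a b => ⟨?_, ?_, ?_⟩, fun a => ?_⟩
    · ext <;> simp [associator_apply, h1, h2] <;> ring
    · ext <;> simp [associator_apply, h1, h2] <;> ring
    · ext <;> simp [associator_apply, h1, h2] <;> ring
    · ext <;> simp [h1, h2] <;> ring

theorem rightAlt : IsRightAlternative Ex := by
  intro a b
  ext <;> simp [associator_apply] <;> ring

theorem not_alt : ¬ IsAlternative Ex := by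
  intro h
  have h1 := congrArg Ex.w (h ⟨0, 1, 0, 0, 0, 0⟩ ⟨0, 0, 1, 0, 0, 0⟩).1
  simp [associator_apply] at h1

theorem ess : IsCentrallyEssential Ex := by
  intro r hr
  by_cases hc : r.x = 0 ∧ r.y = 0
  · exact ⟨1, (mem_center_iff 1).2 ⟨rfl, rfl⟩, by simpa [mem_center_iff] using hc, by simpa using hr⟩
  by_cases h1 : r.e = 0 ∧ r.x = 0
  · have hy : r.y ≠ 0 := fun h => hc ⟨h1.2, h⟩
    refine ⟨⟨0, 0, 0, 0, 1, 0⟩, (mem_center_iff _).2 ⟨rfl, rfl⟩, ?_, ?_⟩
    · rw [mem_center_iff]; simp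
    · intro h
      have h2 := congrArg Ex.w h
      simp at h2
      exact hy h2
  · refine ⟨⟨0, 0, 0, 1, 0, 0⟩, (mem_center_iff _).2 ⟨rfl, rfl⟩, ?_, ?_⟩
    · rw [mem_center_iff]; simp
    · intro h
      have h2 := congrArg Ex.w h
      have h3 := congrArg Ex.v h
      simp at h2 h3
      exact h1 ⟨h3, h2⟩

end Ex

/-- There is a unital right-alternative ring that is not alternative and is centrally essential
(hence also left and right N-essential). -/
theorem result : ∃ (R : Type) (_ : NonAssocRing R),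
    IsRightAlternative R ∧ ¬ IsAlternative R ∧ IsCentrallyEssential R :=
  ⟨Ex, inferInstance, Ex.rightAlt, Ex.not_alt, Ex.ess⟩

end Pool.Agent.Results.MP_bbc03c_al.RightAltEssential
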